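import Pool.Agent.U192.PX.Trans
import Pool.Agent.U192.TF.Kod

/-!
The two definitions of the Kodaira dimension.
-/

set_option autoImplicit false
set_option linter.overlappingInstances false
set_option linter.unusedSectionVars false
set_option maxHeartbeats 4000000

open FF Pool.Agent.W602.GT
open Pool.Agent.Y174 (PairSec PairKod)

namespace Pool.Agent.U192.PX

/-- pluricanonical forms and sections of the multiples of a pair with boundary zero -/
theorem kod_iff {K : Type} [Field K] [Algebra ℂ K] [Algebra.EssFiniteType ℂ K] {n h : ℕ}
    (hn : Algebra.trdeg ℂ K = n) :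
    KodGe ℂ K n (fun _ => False) h ↔ PairKod ℂ K n (fun _ => 0) h := by
  classical
  constructor
  · rintro ⟨m, hm, ω, hω, D, hD, hind⟩
    refine ⟨m, hm, ω, fun l => ⟨(hω l).1, fun P hP G hG => ?_⟩, D, fun l => ?_, hind⟩
    · rcases (hω l).2.2 P hP (fun h => h) G hG with h | h
      · exact Or.inl h
      · refine Or.inr ⟨1, Finset.mem_singleton_self _, one_ne_zero, ?_⟩
        rw [P.ord_one, Int.cast_zero, mul_zero, mul_zero, sub_zero]
        exact_mod_cast h
    · refine Fin.cases hD (fun l => ?_) l
      intro h0
      apply hind.ne_zero l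
      rw [h0, zero_div]
  · intro h
    refine Pool.Agent.U192.TF.kodGe_of_pair_log hn ?_
    have h1 : (fun P : Place ℂ K => if (fun _ : Place ℂ K => False) P then (1 : ℝ) else 0) =
        fun _ => 0 := by
      funext P
      exact if_neg fun h => h
    rw [h1]
    exact h

end Pool.Agent.U192.PX
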