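import Pool.Agent.U192.PX.Reg
import Pool.Agent.U192.PT.Trans

/-!
Correspondences whose fibres over `X` are isotrivial: the lower bounds.
-/

set_option autoImplicit false
set_option linter.overlappingInstances false
set_option linter.unusedSectionVars false
set_option maxHeartbeats 4000000

open FF IntermediateField Pool.Agent.W619.PQ Pool.Agent.W603.LV Pool.Agent.Y172
open Pool.Agent.W602.GT (Divisorial DerReg IsPluri KodGe)
open Pool.Agent.W619.TW (HasIndep)
open Pool.Agent.Y174 (PairSec PairKod PairNum IsPull IsPullFib LiesOn)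
open Pool.Agent.U192.PB (pf cz pf_change pf_pluri up pol_over closed_in indep_pow basis_over)
open Pool.Agent.U192.NM (dg pol)

namespace Pool.Agent.U192.PX

open Pool.Agent.U192.PE (RegS prod_tw SS mem_SS SS_one BdGe ess_prod pf_val indep_of_norm
  kod_of_regS values_indep indep_mul ai_append)

section

variable {K L : Type} [Field K] [Field L] [Algebra ℂ K] [Algebra ℂ L] [Algebra K L]
  [IsScalarTower ℂ K L] [FiniteDimensional K L] {E U F : IntermediateField ℂ L}

/-- a basis consisting of functions of the separating system -/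
theorem basis_sys {Y : Finset E} (hY : ∀ z ∈ IntermediateField.adjoin K (E : Set L),
      z ∈ Submodule.span K {z : L | ∃ t : E, (t = 1 ∨ t ∈ Y) ∧ (t : L) = z}) :
    ∃ (q : ℕ) (f : Module.Basis (Fin q) K (IntermediateField.adjoin K (E : Set L))),
      ∀ j, ∃ g : E, g ≠ 0 ∧ (g = 1 ∨ g ∈ Y) ∧ (g : L) = f j := by
  let M := IntermediateField.adjoin K (E : Set L)
  obtain ⟨S0, hS0⟩ : ∃ S0 : Set M, S0 = {z : M | ∃ t : E, (t = 1 ∨ t ∈ Y) ∧ (t : L) = (z : L)} :=
    ⟨_, rfl⟩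
  have hspan0 : ⊤ ≤ Submodule.span K S0 := by
    intro z _
    have h1 := hY (z : L) z.2
    have h2 : {z : L | ∃ t : E, (t = 1 ∨ t ∈ Y) ∧ (t : L) = z} = M.val.toLinearMap '' S0 := by
      ext w
      rw [hS0]
      constructor
      · rintro ⟨t, ht, rfl⟩
        exact ⟨⟨(t : L), IntermediateField.subset_adjoin K _ t.2⟩, ⟨t, ht, rfl⟩, rfl⟩
      · rintro ⟨w, ⟨t, ht, htw⟩, rfl⟩
        exact ⟨t, ht, htw⟩
    rw [h2, ← Submodule.map_span] at h1
    obtain ⟨w, hw, hwz⟩ := h1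
    have h3 : w = z := Subtype.ext hwz
    rwa [← h3]
  obtain ⟨q, f, hf⟩ := Pool.Agent.U192.PB.exists_basis_mem (K := K) (L := M) S0 hspan0
  refine ⟨q, f, fun j => ?_⟩
  have h1 := hf j
  rw [hS0] at h1
  obtain ⟨g, hg, hgf⟩ := h1
  refine ⟨g, ?_, hg, hgf⟩
  rintro rfl
  exact f.ne_zero j (Subtype.ext hgf.symm)

/-- coordinates of `X` are coordinates of `X'` -/
theorem basis_up {d : ℕ} (hEU : E ≤ U) (hE : Algebra.trdeg ℂ E = d)
    (hU : Algebra.trdeg ℂ U = d) {x : Fin d → E} (hx : IsTranscendenceBasis ℂ x) :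
    IsTranscendenceBasis ℂ fun i => IntermediateField.inclusion hEU (x i) := by
  let iEE1 : Algebra E U := (IntermediateField.inclusion hEU).toRingHom.toAlgebra
  have tE1 : IsScalarTower ℂ E U := IsScalarTower.of_algebraMap_eq fun _ => rfl
  have halgE : Algebra.IsAlgebraic E U := by
    rw [← trdeg_eq_zero_iff]
    have h1 := _root_.trdeg_add_eq ℂ E (A := U)
    rw [hU, hE] at h1
    have h2 : (d : Cardinal) + Algebra.trdeg E U = d + 0 := by rw [h1, add_zero]
    exact Cardinal.eq_of_add_eq_add_left h2 (Cardinal.natCast_lt_aleph0)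
  exact hx.algebraMap_comp (A := U)

/-- **The norm inequality for isotrivial correspondences.** -/
theorem norm_prod {d r : ℕ} [Algebra.EssFiniteType ℂ E] [Algebra.EssFiniteType ℂ U]
    [Algebra.EssFiniteType ℂ F] (hsup : U ⊔ F = ⊤) (hEU : E ≤ U) (hE : Algebra.trdeg ℂ E = d)
    (hU : Algebra.trdeg ℂ U = d)
    (hF : Algebra.trdeg ℂ F = r) (hL : Algebra.trdeg ℂ L = (d + r : ℕ))
    (hKU : IntermediateField.adjoin K (U : Set L) = ⊤) {Y : Finset E}
    (hY : ∀ z ∈ IntermediateField.adjoin K (E : Set L),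
      z ∈ Submodule.span K {z : L | ∃ t : E, (t = 1 ∨ t ∈ Y) ∧ (t : L) = z})
    (SE : Finset E) (SF : Finset F) (hSE : ∃ s ∈ SE, s ≠ 0) (hSF : ∃ s ∈ SF, s ≠ 0) :
    ∃ Z : Finset K, (SE = {1} → SF = {1} → Z = {1}) ∧
    ∀ (δ : Place ℂ K → ℝ) (δF : Place ℂ F → ℝ), (∀ P, 0 ≤ δ P) →
    (∀ P, Divisorial r P → δF P ≤ 1) → BdGe U F (d + r) δ δF → ∀ m N1 N2 : ℕ,
    HasIndep ℂ E d N1 (SecT d m Y SE) → HasIndep ℂ F r N2 (PairSec ℂ F r δF SF m 1) →
    HasIndep ℂ K (d + r) (N1 * N2) (PairSec ℂ K (d + r) δ Z (m * Module.finrank K L) 1) := by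
  classical
  have hessL : Algebra.EssFiniteType ℂ L := ess_prod U F hsup
  have hessK : Algebra.EssFiniteType ℂ K := Pool.Agent.TH466.QG.ess_below (K := L)
  obtain ⟨x, hx⟩ := Pool.Agent.W636.PG.exists_basis ℂ E d hE
  obtain ⟨t, ht⟩ := Pool.Agent.W636.PG.exists_basis ℂ F r hF
  obtain ⟨Ex, hEx⟩ := Pool.Agent.W636.PG.exists_duals ℂ E d x hx
  obtain ⟨Et, hEt⟩ := Pool.Agent.W636.PG.exists_duals ℂ F r t ht
  obtain ⟨D, hD'⟩ := Pool.Agent.W636.PG.exists_duals ℂ L (d + r)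
    (cz (fun i => IntermediateField.inclusion hEU (x i)) t)
    (Pool.Agent.Y174.basis_append (basis_up hEU hE hU hx) (basis_over hsup hU hL ht))
  have hD : ∀ i j, D i (cz x t j) = if i = j then 1 else 0 := hD'
  have hsM : IsScalarTower ℂ (IntermediateField.adjoin K (E : Set L)) L :=
    IsScalarTower.of_algebraMap_eq fun _ => rfl
  obtain ⟨q, f, hf⟩ := basis_sys hY
  obtain ⟨Z, hZ1, hZ⟩ := indep_of_norm (K := K) (M := IntermediateField.adjoin K (E : Set L))
    (L := L) f (SS E F SE SF) (by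
    obtain ⟨s, hs, hs0⟩ := hSE
    obtain ⟨s', hs', hs0'⟩ := hSF
    exact ⟨_, mem_SS E F hs hs', mul_ne_zero (by rwa [Ne, ZeroMemClass.coe_eq_zero]) (by
      rwa [Ne, ZeroMemClass.coe_eq_zero])⟩)
  refine ⟨Z, fun h1 h2 => hZ1 (by rw [h1, h2, SS_one]), ?_⟩
  rintro δ δF hδ0 hδF1 hbd m N1 N2 ⟨α, hαi, hα⟩ ⟨β, hβi, hβ⟩
  have hreg := fun p : Fin N1 × Fin N2 => regS_prod (K := K) hEU hE hU hF hL hKU hSE hSF hδ0
    hδF1 hbd hf (hα p.1) (hβ p.2) hx ht hEx hEt
  refine hZ δ (d + r) m (N1 * N2) hL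
    (fun l => pf x t m (α (finProdFinEquiv.symm l).1 Ex) (β (finProdFinEquiv.symm l).2 Et))
    (fun l => pf_pluri x t _ _ _) (fun l => hreg _) ?_
  have h1 : LinearIndependent ℂ fun i => α i Ex := values_indep (fun l => (hα l).1) hαi hx hEx
  have h1' : LinearIndependent ℂ fun i => IntermediateField.inclusion hEU (α i Ex) :=
    h1.map' (IntermediateField.inclusion hEU).toLinearMap
      (LinearMap.ker_eq_bot.2 (IntermediateField.inclusion hEU).toRingHom.injective)
  have h2 : LinearIndependent ℂ fun j => β j Et := values_indep (fun l => (hβ l).1) hβi ht hEt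
  have h3 := indep_mul hsup hU hF hL h1' h2
  have h4 : LinearIndependent ℂ fun p : Fin N1 × Fin N2 =>
      pf (L := L) x t m (α p.1 Ex) (β p.2 Et) := by
    rw [Fintype.linearIndependent_iff]
    intro g hg
    refine Fintype.linearIndependent_iff.1 h3 g ?_
    have h5 := congrFun hg D
    rw [Finset.sum_apply] at h5
    refine Eq.trans (Finset.sum_congr rfl fun p _ => ?_) h5
    rw [Pi.smul_apply, pf_val E F hD]
    rfl
  exact h4.comp _ (Equiv.injective _)

/-- **The Iitaka inequality for isotrivial correspondences.** -/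
theorem kod_prod {d r : ℕ} [Algebra.EssFiniteType ℂ E] [Algebra.EssFiniteType ℂ U]
    [Algebra.EssFiniteType ℂ F] (hsup : U ⊔ F = ⊤) (hEU : E ≤ U) (hE : Algebra.trdeg ℂ E = d)
    (hU : Algebra.trdeg ℂ U = d)
    (hF : Algebra.trdeg ℂ F = r) (hL : Algebra.trdeg ℂ L = (d + r : ℕ))
    (hKU : IntermediateField.adjoin K (U : Set L) = ⊤) {Y : Finset E}
    (hY : ∀ z ∈ IntermediateField.adjoin K (E : Set L),
      z ∈ Submodule.span K {z : L | ∃ t : E, (t = 1 ∨ t ∈ Y) ∧ (t : L) = z})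
    {δ : Place ℂ K → ℝ} {δF : Place ℂ F → ℝ} (hδ0 : ∀ P, 0 ≤ δ P)
    (hδF1 : ∀ P, Divisorial r P → δF P ≤ 1) (hbd : BdGe U F (d + r) δ δF)
    {m a b : ℕ} (hm : 1 ≤ m) {α : Fin (a + 1) → (Fin d → Derivation ℂ E E) → E}
    (hα : ∀ j, SecT d m Y {1} (α j)) {G0 : Fin d → Derivation ℂ E E} (hG0 : α 0 G0 ≠ 0)
    (hind : AlgebraicIndependent ℂ fun j : Fin a => α j.succ G0 / α 0 G0)
    (hYk : PairKod ℂ F r δF b) : PairKod ℂ K (d + r) δ (a + b) := by
  classical
  have hessL : Algebra.EssFiniteType ℂ L := ess_prod U F hsup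
  have hessK : Algebra.EssFiniteType ℂ K := Pool.Agent.TH466.QG.ess_below (K := L)
  obtain ⟨N, hN, ω, hω, D1, hD1, hindY⟩ := hYk
  obtain ⟨x, hx⟩ := Pool.Agent.W636.PG.exists_basis ℂ E d hE
  obtain ⟨t, ht⟩ := Pool.Agent.W636.PG.exists_basis ℂ F r hF
  obtain ⟨Ex, hEx⟩ := Pool.Agent.W636.PG.exists_duals ℂ E d x hx
  obtain ⟨Et, hEt⟩ := Pool.Agent.W636.PG.exists_duals ℂ F r t ht
  obtain ⟨D, hD'⟩ := Pool.Agent.W636.PG.exists_duals ℂ L (d + r)
    (cz (fun i => IntermediateField.inclusion hEU (x i)) t)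
    (Pool.Agent.Y174.basis_append (basis_up hEU hE hU hx) (basis_over hsup hU hL ht))
  have hD : ∀ i j, D i (cz x t j) = if i = j then 1 else 0 := hD'
  have hsM : IsScalarTower ℂ (IntermediateField.adjoin K (E : Set L)) L :=
    IsScalarTower.of_algebraMap_eq fun _ => rfl
  obtain ⟨q, f, hf⟩ := basis_sys hY
  have hα' : ∀ j, SecT d (m * N) Y {1} (fun G => α j G ^ N) := by
    intro j
    refine ⟨pluri_pow (hα j).1 N, fun P hP G hG => ?_⟩
    rcases (hα j).2 P hP G hG with h | ⟨s, hs, hs0, h⟩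
    · left
      change α j G ^ N = 0
      rw [h, zero_pow (by omega)]
    · refine Or.inr ⟨s, hs, hs0, ?_⟩
      rw [Finset.mem_singleton] at hs
      rw [hs, P.ord_one, add_zero] at h ⊢
      rw [P.ord_pow]
      have h3 := mul_le_mul_of_nonneg_left h (Int.natCast_nonneg N)
      refine le_trans (le_of_eq ?_) h3
      push_cast
      ring
  have hβ' : ∀ j, PairSec ℂ F r δF {1} (m * N) 1 (fun G => ω j G ^ m) := by
    intro j
    refine ⟨by
      have h1 := pluri_pow (hω j).1 m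
      rwa [mul_comm] at h1, fun P hP G hG => ?_⟩
    rcases (hω j).2 P hP G hG with h | ⟨s, hs, hs0, h⟩
    · left
      change ω j G ^ m = 0
      rw [h, zero_pow (by omega)]
    · refine Or.inr ⟨s, hs, hs0, ?_⟩
      rw [Finset.mem_singleton] at hs
      rw [hs, P.ord_one] at h ⊢
      rw [P.ord_pow]
      have h1 := mul_le_mul_of_nonneg_left h (Nat.cast_nonneg (α := ℝ) m)
      push_cast at h1 ⊢
      linarith
  have h11 : ∃ s ∈ ({1} : Finset E), s ≠ 0 := ⟨1, Finset.mem_singleton_self _, one_ne_zero⟩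
  have h12 : ∃ s ∈ ({1} : Finset F), s ≠ 0 := ⟨1, Finset.mem_singleton_self _, one_ne_zero⟩
  have hreg := fun (i : Fin (a + 1)) (j : Fin (b + 1)) => regS_prod (K := K) hEU hE hU hF hL hKU
    h11 h12 hδ0 hδF1 hbd hf (hα' i) (hβ' j) hx ht hEx hEt
  -- the forms
  obtain ⟨I, hI⟩ : ∃ I : Fin (a + b + 1) → Fin (a + 1) × Fin (b + 1), I 0 = (0, 0) ∧
      (∀ i : Fin a, I (Fin.castAdd b i).succ = (i.succ, 0)) ∧
      ∀ j : Fin b, I (Fin.natAdd a j).succ = (0, j.succ) := by
    refine ⟨Fin.cons (0, 0) (Fin.append (fun i => (i.succ, 0)) fun j => (0, j.succ)), rfl,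
      fun i => ?_, fun j => ?_⟩
    · rw [Fin.cons_succ, Fin.append_left]
    · rw [Fin.cons_succ, Fin.append_right]
  obtain ⟨hI0, hI1, hI2⟩ := hI
  have hωne : ∀ j, ω j Et ≠ 0 := by
    intro j h0
    apply hD1 j
    have h1 : ω j D1 = _ := pluri_coord ht hEt (hω j).1 D1
    rw [h1, h0, mul_zero]
  have hcoord : ∀ j, α j G0 = _ := fun j => pluri_coord hx hEx (hα j).1 G0
  have hdet0 : (Matrix.of fun i j => G0 i (x j)).det ^ m ≠ 0 := by
    intro h0
    apply hG0
    rw [hcoord 0, h0, zero_mul]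
  have hαne : α 0 Ex ≠ 0 := by
    intro h0
    apply hG0
    rw [hcoord 0, h0, mul_zero]
  have hratio : ∀ j, α j Ex / α 0 Ex = α j G0 / α 0 G0 := by
    intro j
    rw [hcoord 0, hcoord j]
    field_simp
  have hcoordY : ∀ j, ω j D1 = _ := fun j => pluri_coord ht hEt (hω j).1 D1
  have hdetY : (Matrix.of fun i j => D1 i (t j)).det ^ N ≠ 0 := by
    intro h0
    apply hD1 0
    rw [hcoordY 0, h0, zero_mul]
  have hratioY : ∀ j, ω j Et / ω 0 Et = ω j D1 / ω 0 D1 := by
    intro j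
    have h1 := hωne 0
    rw [hcoordY 0, hcoordY j]
    field_simp
  have hα0 : ((α 0 Ex ^ N : E) : L) ≠ 0 := by
    rw [Ne, ZeroMemClass.coe_eq_zero]
    exact pow_ne_zero _ hαne
  have hω0 : ((ω 0 Et ^ m : F) : L) ≠ 0 := by
    rw [Ne, ZeroMemClass.coe_eq_zero]
    exact pow_ne_zero _ (hωne 0)
  have hone : SS E F ({1} : Finset E) ({1} : Finset F) = {1} := SS_one E F
  refine kod_of_regS (K := K) (M := IntermediateField.adjoin K (E : Set L)) (L := L) f
    (m := m * N) (n := d + r) (Nat.mul_pos hm hN) hL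
    (θ := fun l => pf x t (m * N) (α (I l).1 Ex ^ N) (ω (I l).2 Et ^ m))
    (fun l => pf_pluri x t _ _ _) (fun l => ?_) (D0 := D) ?_ ?_
  · have h1 := hreg (I l).1 (I l).2
    rw [hone] at h1
    exact h1
  · rw [hI0, pf_val E F hD]
    exact mul_ne_zero hα0 hω0
  · have h3 : (fun l : Fin (a + b) =>
        pf (L := L) x t (m * N) (α (I l.succ).1 Ex ^ N) (ω (I l.succ).2 Et ^ m) D /
        pf (L := L) x t (m * N) (α (I 0).1 Ex ^ N) (ω (I 0).2 Et ^ m) D) =
        Fin.append (fun i => ((IntermediateField.inclusion hEU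
          ((α i.succ G0 / α 0 G0) ^ N) : U) : L))
          fun j => (((ω j.succ D1 / ω 0 D1) ^ m : F) : L) := by
      funext l
      rw [pf_val E F hD, pf_val E F hD, hI0]
      refine Fin.addCases (fun i => ?_) (fun j => ?_) l
      · rw [hI1, Fin.append_left, mul_div_mul_right _ _ hω0, ← hratio, div_pow]
        rfl
      · rw [hI2, Fin.append_right, mul_div_mul_left _ _ hα0, ← hratioY, div_pow]
        rfl
    rw [h3]
    exact ai_append hsup hU hF hL ((indep_pow hN hind).map'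
      (f := IntermediateField.inclusion hEU) (IntermediateField.inclusion hEU).injective)
      (indep_pow hm hindY)

end

end Pool.Agent.U192.PX
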