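import Pool.Agent.U192.PX.Main

/-!
Correspondences whose fibres over `X` are isotrivial: the transfer of nonvanishing and abundance.
-/

set_option autoImplicit false
set_option linter.overlappingInstances false
set_option linter.unusedSectionVars false
set_option maxHeartbeats 4000000

open FF IntermediateField Pool.Agent.W619.PQ Pool.Agent.W603.LV Pool.Agent.Y172
open Pool.Agent.W602.GT (Divisorial DerReg IsPluri KodGe)
open Pool.Agent.W619.TW (HasIndep)
open Pool.Agent.Y174 (PairSec PairKod PairNum IsPull IsPullFib LiesOn)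
open Pool.Agent.U192.PB (pf cz pf_change pf_pluri up pol_over closed_in indep_pow basis_over
  ge_det_col)
open Pool.Agent.U192.NM (dg pol)

namespace Pool.Agent.U192.PX

open Pool.Agent.U192.PE (RegS BdGe num_prod)
open Pool.Agent.U192.PN (IsProd DivBd)
open Pool.Agent.U192.PT (exists_pole det_pole kod_down sec_down kod_zero)

/-- **The number of sections.** -/
theorem many_sections {U : Type} [Field U] [Algebra ℂ U] {d m0 a : ℕ} (hm0 : 1 ≤ m0)
    (hU : Algebra.trdeg ℂ U = d)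
    (X : Finset U) {α : Fin (a + 1) → (Fin d → Derivation ℂ U U) → U}
    (hα : ∀ j, SecT d m0 X {1} (α j)) {G0 : Fin d → Derivation ℂ U U} (hG0 : α 0 G0 ≠ 0)
    (hind : AlgebraicIndependent ℂ fun j : Fin a => α j.succ G0 / α 0 G0) :
    ∃ SU : Finset U, (∃ s ∈ SU, s ≠ 0) ∧ ∀ m : ℕ,
      HasIndep ℂ U d ((m / m0 / a + 1) ^ a) (SecT d m X SU) := by
  classical
  obtain ⟨x, hx⟩ := Pool.Agent.W636.PG.exists_basis ℂ U d hU
  obtain ⟨Ex, hEx⟩ := Pool.Agent.W636.PG.exists_duals ℂ U d x hx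
  obtain ⟨Y, hY⟩ : ∃ Y : Finset U, Y = Finset.univ.image x ∪ X := ⟨_, rfl⟩
  have hxY : ∀ j, x j ∈ Y := by
    intro j
    rw [hY]
    exact Finset.mem_union_left _ (Finset.mem_image_of_mem _ (Finset.mem_univ j))
  have hXY : X ⊆ Y := by
    rw [hY]
    exact Finset.subset_union_right
  obtain ⟨w, hw⟩ : ∃ w : Place ℂ U → ℤ, ∀ P, w P = 2 * pol X P := ⟨_, fun _ => rfl⟩
  have hwm : ∀ (m : ℕ) (P : Place ℂ U), 2 * (m : ℤ) * pol X P = m * w P := by
    intro m P
    rw [hw]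
    ring
  have hw0 : ∀ P, 0 ≤ w P := by
    intro P
    rw [hw]
    positivity
  obtain ⟨C1, hC1⟩ : ∃ C1 : ℕ, ∀ P, w P ≤ C1 * pol Y P := by
    refine ⟨2, fun P => ?_⟩
    rw [hw]
    have h1 : (pol X P : ℤ) ≤ pol Y P := by
      have h2 : pol X P ≤ pol Y P := Finset.sup_mono hXY
      exact_mod_cast h2
    push_cast
    linarith
  obtain ⟨SU, hSU0, hSU⟩ := exists_pole Y (m0 * (2 * d + C1))
  refine ⟨SU, hSU0, fun m => ?_⟩
  obtain ⟨q, hq⟩ : ∃ q, q = m / m0 := ⟨_, rfl⟩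
  obtain ⟨r, hr⟩ : ∃ r, r = m % m0 := ⟨_, rfl⟩
  have hqr : m = m0 * q + r := by
    rw [hq, hr]
    exact (Nat.div_add_mod m m0).symm
  have hrm : r ≤ m0 := by
    rw [hr]
    exact (Nat.mod_lt m hm0).le
  rw [← hq]
  have hsum : ∀ e : Fin a → Fin (q / a + 1), ∑ j, (e j : ℕ) ≤ q := by
    intro e
    have h1 : ∑ j, (e j : ℕ) ≤ ∑ _j : Fin a, q / a := Finset.sum_le_sum fun j _ =>
      Nat.lt_succ_iff.1 (e j).2
    rw [Finset.sum_const, Finset.card_univ, Fintype.card_fin, smul_eq_mul] at h1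
    exact h1.trans (Nat.mul_div_le q a)
  obtain ⟨Φ, hΦ⟩ : ∃ Φ : (Fin a → Fin (q / a + 1)) → (Fin d → Derivation ℂ U U) → U, ∀ e G,
      Φ e G = (∏ j : Fin a, α j.succ G ^ (e j : ℕ)) * α 0 G ^ (q - ∑ j, (e j : ℕ)) *
        (Matrix.of fun i j => G i (x j)).det ^ r := ⟨_, fun _ _ => rfl⟩
  have hpl : ∀ e, IsPluri m (Φ e) := by
    intro e A G
    have h1 : ∀ j, α j (fun i => ∑ j, A i j • G j) = A.det ^ m0 * α j G := fun j => (hα j).1 A G
    have h2 : (Matrix.of fun i j => (∑ l, A i l • G l) (x j)).det =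
        A.det * (Matrix.of fun i j => G i (x j)).det := by
      rw [← Matrix.det_mul]
      congr 1
      ext i j
      rw [Matrix.of_apply, Matrix.mul_apply, Pool.Agent.W308.PG.YLOC.der_sum_apply]
      rfl
    have h3 : ∏ j : Fin a, (A.det ^ m0 * α j.succ G) ^ (e j : ℕ) =
        (A.det ^ m0) ^ (∑ j, (e j : ℕ)) * ∏ j : Fin a, α j.succ G ^ (e j : ℕ) := by
      rw [← Finset.prod_pow_eq_pow_sum, ← Finset.prod_mul_distrib]
      refine Finset.prod_congr rfl fun j _ => ?_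
      rw [mul_pow]
    rw [hΦ, hΦ]
    simp only [h1]
    have h4 : (Matrix.of fun i j => ((fun i => ∑ l, A i l • G l) i) (x j)).det =
        A.det * (Matrix.of fun i j => G i (x j)).det := h2
    rw [h4, h3, mul_pow, mul_pow]
    have h5 : A.det ^ m = (A.det ^ m0) ^ (∑ j, (e j : ℕ)) * (A.det ^ m0) ^ (q - ∑ j, (e j : ℕ)) *
        A.det ^ r := by
      rw [← pow_add, Nat.add_sub_cancel' (hsum e), ← pow_mul, ← pow_add, ← hqr]
    rw [h5]
    ring
  have hreg : ∀ e, SecT d m X SU (Φ e) := by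
    intro e
    refine ⟨hpl e, fun P hP G hG => ?_⟩
    have h1 : ∀ j, Ge P (m0 * w P) (α j G) := by
      intro j
      rcases (hα j).2 P hP G hG with h | ⟨s, hs, hs0, h⟩
      · exact Or.inl h
      · rw [Finset.mem_singleton] at hs
        rw [hs, P.ord_one, add_zero, hwm] at h
        exact Or.inr h
    have h2 : Ge P (∑ j : Fin a, ((e j : ℕ) : ℤ) * (m0 * w P))
        (∏ j : Fin a, α j.succ G ^ (e j : ℕ)) := by
      refine Ge.prod _ _ _ fun j _ => ?_
      exact (h1 j.succ).pow _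
    have h3 := (h1 0).pow (q - ∑ j, (e j : ℕ))
    have h4 := (det_pole hxY P hG).pow r
    have h5 := (h2.mul h3).mul h4
    rw [hΦ]
    rcases h5 with h5 | h5
    · exact Or.inl h5
    right
    obtain ⟨s, hs, hs0, h6⟩ := hSU P
    refine ⟨s, hs, hs0, le_trans ?_ h5⟩
    rw [hwm]
    have h7 : (∑ j : Fin a, ((e j : ℕ) : ℤ) * (m0 * w P)) +
        ((q - ∑ j, (e j : ℕ) : ℕ) : ℤ) * (m0 * w P) = q * (m0 * w P) := by
      rw [← Finset.sum_mul, Nat.cast_sub (hsum e)]
      push_cast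
      ring
    rw [h7, hqr]
    have h8 := hC1 P
    have h9 : (r : ℤ) ≤ m0 := by exact_mod_cast hrm
    have h10 : (0 : ℤ) ≤ pol Y P := Int.natCast_nonneg _
    have h11 : (r : ℤ) * w P ≤ r * (C1 * pol Y P) :=
      mul_le_mul_of_nonneg_left h8 (Int.natCast_nonneg _)
    have h12 : (r : ℤ) * ((2 * d + C1) * pol Y P) ≤ m0 * ((2 * d + C1) * pol Y P) :=
      mul_le_mul_of_nonneg_right h9 (by positivity)
    push_cast at h6 ⊢
    nlinarith
  refine ⟨fun l => Φ (finFunctionFinEquiv.symm l), ?_, fun l => hreg _⟩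
  -- linear independence
  have hα0 : α 0 Ex ≠ 0 := by
    intro h0
    apply hG0
    have h1 : α 0 G0 = _ := pluri_coord hx hEx (hα 0).1 G0
    rw [h1, h0, mul_zero]
  have hdet0 : (Matrix.of fun i j => G0 i (x j)).det ^ m0 ≠ 0 := by
    intro h0
    apply hG0
    have h1 : α 0 G0 = _ := pluri_coord hx hEx (hα 0).1 G0
    rw [h1, h0, zero_mul]
  have hratio : ∀ j, α j Ex / α 0 Ex = α j G0 / α 0 G0 := by
    intro j
    have h1 : α 0 G0 = _ := pluri_coord hx hEx (hα 0).1 G0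
    have h2 : α j G0 = _ := pluri_coord hx hEx (hα j).1 G0
    rw [h1, h2]
    field_simp
  have h1 : LinearIndependent ℂ fun e : Fin a → Fin (q / a + 1) =>
      ∏ j, (α j.succ G0 / α 0 G0) ^ (e j : ℕ) := by
    have h2 := (Pool.Agent.U192.PT.mono_indep hind).comp (fun e : Fin a → Fin (q / a + 1) =>
      Finsupp.equivFunOnFinite.symm fun j => (e j : ℕ)) (by
        intro e e' h
        have h3 := Finsupp.equivFunOnFinite.symm.injective h
        funext j
        exact Fin.ext (congrFun h3 j))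
    exact h2
  have hdetE : (Matrix.of fun i j => Ex i (x j)).det = 1 := by
    have h3 : (Matrix.of fun i j => Ex i (x j)) = (1 : Matrix (Fin d) (Fin d) U) := by
      ext i j
      rw [Matrix.of_apply, hEx, Matrix.one_apply]
    rw [h3, Matrix.det_one]
  have hval : ∀ e, Φ e Ex = α 0 Ex ^ q * ∏ j, (α j.succ G0 / α 0 G0) ^ (e j : ℕ) := by
    intro e
    rw [hΦ, hdetE, one_pow, mul_one]
    have h3 : ∏ j : Fin a, α j.succ Ex ^ (e j : ℕ) = α 0 Ex ^ (∑ j, (e j : ℕ)) *
        ∏ j, (α j.succ G0 / α 0 G0) ^ (e j : ℕ) := by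
      rw [← Finset.prod_pow_eq_pow_sum, ← Finset.prod_mul_distrib]
      refine Finset.prod_congr rfl fun j _ => ?_
      rw [← hratio, div_pow, mul_div_cancel₀ _ (pow_ne_zero _ hα0)]
    rw [h3]
    have h4 : α 0 Ex ^ q = α 0 Ex ^ (∑ j, (e j : ℕ)) * α 0 Ex ^ (q - ∑ j, (e j : ℕ)) := by
      rw [← pow_add, Nat.add_sub_cancel' (hsum e)]
    rw [h4]
    ring
  have h2 : LinearIndependent ℂ Φ := by
    rw [Fintype.linearIndependent_iff] at h1 ⊢
    intro g hg
    refine h1 g ?_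
    have h3 := congrFun hg Ex
    rw [Finset.sum_apply] at h3
    have h4 : α 0 Ex ^ q * ∑ e, g e • ∏ j, (α j.succ G0 / α 0 G0) ^ (e j : ℕ) = 0 := by
      rw [Finset.mul_sum]
      refine Eq.trans (Finset.sum_congr rfl fun e _ => ?_) h3
      rw [Pi.smul_apply, hval, mul_smul_comm]
    exact (mul_eq_zero.1 h4).resolve_left (pow_ne_zero _ hα0)
  exact h2.comp _ (Equiv.injective _)


end Pool.Agent.U192.PX
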