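import Pool.Agent.U192.PE.Iit
import Pool.Agent.U192.TF.Fin
import Pool.Agent.U192.TF.Unram

/-!
Correspondences whose fibres over `X` are isotrivial: the regularity of the products of the sections.
-/

set_option autoImplicit false
set_option linter.overlappingInstances false
set_option linter.unusedSectionVars false

open FF IntermediateField Pool.Agent.W619.PQ Pool.Agent.W603.LV Pool.Agent.Y172
open Pool.Agent.W602.GT (Divisorial DerReg IsPluri KodGe)
open Pool.Agent.W619.TW (HasIndep)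
open Pool.Agent.Y174 (PairSec PairKod PairNum IsPull IsPullFib LiesOn)
open Pool.Agent.U192.PB (pf cz pf_change pf_pluri up pol_over closed_in indep_pow basis_over)
open Pool.Agent.U192.NM (dg pol)

namespace Pool.Agent.U192.PX

open Pool.Agent.U192.PE (RegS prod_tw SS mem_SS BdGe)
open Pool.Agent.U192.TF (unram span_subfield)

/-- sections of `m (K_X - 2 H) + A`, where `A` is given by the finite set `S` -/
def SecT {E : Type} [Field E] [Algebra ℂ E] (d m : ℕ) (Y : Finset E) (S : Finset E)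
    (α : (Fin d → Derivation ℂ E E) → E) : Prop :=
  IsPluri m α ∧ ∀ P : Place ℂ E, Divisorial d P → ∀ G : Fin d → Derivation ℂ E E,
    (∀ i, DerReg P (G i)) → α G = 0 ∨ ∃ s ∈ S, s ≠ 0 ∧
      2 * (m : ℤ) * pol Y P + P.ord s ≤ P.ord (α G)

section

variable {K L : Type} [Field K] [Field L] [Algebra ℂ K] [Algebra ℂ L] [Algebra K L]
  [IsScalarTower ℂ K L] [FiniteDimensional K L] {E U F : IntermediateField ℂ L}

/-- algebraic extensions -/
theorem alg_of_trdeg {d : ℕ} (hEU : E ≤ U) (hE : Algebra.trdeg ℂ E = d)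
    (hU : Algebra.trdeg ℂ U = d) (z : L) (hz : z ∈ U) : IsIntegral E z := by
  let iEE1 : Algebra E U := (IntermediateField.inclusion hEU).toRingHom.toAlgebra
  have tE1 : IsScalarTower ℂ E U := IsScalarTower.of_algebraMap_eq fun _ => rfl
  have halgE : Algebra.IsAlgebraic E U := by
    rw [← trdeg_eq_zero_iff]
    have h1 := _root_.trdeg_add_eq ℂ E (A := U)
    rw [hU, hE] at h1
    have h2 : (d : Cardinal) + Algebra.trdeg E U = d + 0 := by rw [h1, add_zero]
    exact Cardinal.eq_of_add_eq_add_left h2 (Cardinal.natCast_lt_aleph0)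
  have h2 : IsIntegral E (⟨z, hz⟩ : U) := (halgE.isAlgebraic _).isIntegral
  have tEK : IsScalarTower E U L := IsScalarTower.of_algebraMap_eq fun _ => rfl
  exact h2.algebraMap (B := L)

/-- places which are trivial on `E` are trivial on `U` -/
theorem triv_up {d : ℕ} (hEU : E ≤ U) (hE : Algebra.trdeg ℂ E = d)
    (hU : Algebra.trdeg ℂ U = d) {Q : Place ℂ L} (hQ : ∀ z ∈ E, Q.ord z = 0) :
    ∀ z ∈ U, Q.ord z = 0 := by
  intro z hz
  by_cases h0 : z = 0
  · rw [h0, Q.ord_zero]
  have hreg : ∀ c : E, Q.Reg (algebraMap E L c) := fun c => Or.inr (hQ _ c.2).ge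
  have h1 := (Q.reg_of_isIntegral hreg (alg_of_trdeg hEU hE hU z hz)).resolve_left h0
  have h2 := (Q.reg_of_isIntegral hreg (alg_of_trdeg hEU hE hU z⁻¹ (inv_mem hz))).resolve_left
    (inv_ne_zero h0)
  rw [Q.ord_inv] at h2
  omega

/-- the variety is unramified over the image in `W × X` along the divisors which are mapped onto
`X` -/
theorem c_one {d : ℕ} (hEU : E ≤ U) (hE : Algebra.trdeg ℂ E = d) (hU : Algebra.trdeg ℂ U = d)
    (hKU : IntermediateField.adjoin K (U : Set L) = ⊤) {Q : Place ℂ L}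
    (hQ : ∀ z ∈ E, Q.ord z = 0) {c : ℕ}
    (hc : ∀ z : IntermediateField.adjoin K (E : Set L), (c : ℤ) ∣ Q.ord (z : L)) : c = 1 := by
  let M := IntermediateField.adjoin K (E : Set L)
  let iEM : Algebra E M := ({ toFun := fun u => ⟨(u : L), IntermediateField.subset_adjoin K _ u.2⟩
                              map_one' := rfl
                              map_mul' := fun _ _ => rfl
                              map_zero' := rfl
                              map_add' := fun _ _ => rfl } : E →+* M).toAlgebra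
  have s1 : IsScalarTower ℂ M L := IsScalarTower.of_algebraMap_eq fun _ => rfl
  have s6 : IsScalarTower E M L := IsScalarTower.of_algebraMap_eq fun _ => rfl
  have hfML : FiniteDimensional M L := FiniteDimensional.right K M L
  have hadj : IntermediateField.adjoin M (U.toSubfield : Set L) = ⊤ := by
    rw [eq_top_iff]
    intro z _
    have hz : z ∈ IntermediateField.adjoin K (U : Set L) := by
      rw [hKU]
      exact IntermediateField.mem_top
    refine IntermediateField.adjoin_induction K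
      (p := fun z _ => z ∈ IntermediateField.adjoin M (U.toSubfield : Set L)) ?_ ?_ ?_ ?_ ?_ hz
    · intro z hz
      exact IntermediateField.subset_adjoin M _ hz
    · intro u
      exact (IntermediateField.adjoin M (U.toSubfield : Set L)).algebraMap_mem (algebraMap K M u)
    · intro x y _ _ hx hy
      exact add_mem hx hy
    · intro x _ hx
      exact inv_mem hx
    · intro x y _ _ hx hy
      exact mul_mem hx hy
  obtain ⟨q', bb, hb⟩ := Pool.Agent.U192.PB.exists_basis_mem (K := M) (L := L)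
    (U.toSubfield : Set L) (span_subfield U.toSubfield hadj)
  have hb' : ∀ j, IsIntegral E (bb j) := fun j => alg_of_trdeg hEU hE hU _ (hb j)
  obtain ⟨PM, e', hPM⟩ := exists_below (k := ℂ) (K := M) (L := L) Q
  have h3 : e' = 1 := unram bb hb' (fun c => hPM.reg.1 (by
    rw [← IsScalarTower.algebraMap_apply E M L]
    exact Or.inr (hQ _ c.2).ge)) hPM
  obtain ⟨π, -, hπ⟩ := PM.surj
  have h4 := hc π
  have h5 : Q.ord (π : L) = e' * PM.ord π := hPM.2 π
  rw [h5, hπ, h3] at h4
  exact Nat.dvd_one.1 (by exact_mod_cast h4)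

/-- **The regularity of the products.** -/
theorem regS_prod {d r m : ℕ} [Algebra.EssFiniteType ℂ E] [Algebra.EssFiniteType ℂ F]
    (hEU : E ≤ U) (hE : Algebra.trdeg ℂ E = d) (hU : Algebra.trdeg ℂ U = d)
    (hF : Algebra.trdeg ℂ F = r) (hL : Algebra.trdeg ℂ L = (d + r : ℕ))
    (hKU : IntermediateField.adjoin K (U : Set L) = ⊤) {Y : Finset E} {SE : Finset E}
    {SF : Finset F} (hSE : ∃ s ∈ SE, s ≠ 0) (hSF : ∃ s ∈ SF, s ≠ 0)
    {δ : Place ℂ K → ℝ} (hδ0 : ∀ P, 0 ≤ δ P) {δF : Place ℂ F → ℝ}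
    (hδF1 : ∀ P, Divisorial r P → δF P ≤ 1) (hbd : BdGe U F (d + r) δ δF) {q : ℕ}
    {f : Fin q → IntermediateField.adjoin K (E : Set L)}
    (hf : ∀ j, ∃ g : E, g ≠ 0 ∧ (g = 1 ∨ g ∈ Y) ∧ (g : L) = f j)
    {α : (Fin d → Derivation ℂ E E) → E} (hα : SecT d m Y SE α)
    {β : (Fin r → Derivation ℂ F F) → F} (hβ : PairSec ℂ F r δF SF m 1 β)
    {x : Fin d → E} {t : Fin r → F} {Ex : Fin d → Derivation ℂ E E}
    {Et : Fin r → Derivation ℂ F F} (hx : IsTranscendenceBasis ℂ x)
    (ht : IsTranscendenceBasis ℂ t) (hEx : ∀ i j, Ex i (x j) = if i = j then 1 else 0)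
    (hEt : ∀ i j, Et i (t j) = if i = j then 1 else 0) :
    RegS δ (IntermediateField.adjoin K (E : Set L)) (d + r) m (SS E F SE SF)
      (fun j => algebraMap (IntermediateField.adjoin K (E : Set L)) L (f j))
      (pf x t m (α Ex) (β Et)) := by
  intro P Q e hQP hQ c hc G hG
  by_cases hne : pf x t m (α Ex) (β Et) G = 0
  · exact Or.inl hne
  right
  have hm0 : (0 : ℝ) ≤ m := Nat.cast_nonneg m
  have h6 : (0 : ℝ) ≤ m * e * δ P := mul_nonneg (mul_nonneg hm0 (Nat.cast_nonneg _)) (hδ0 P)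
  have hss : ∀ {s : E} {s' : F}, s ≠ 0 → s' ≠ 0 →
      (Q.ord ((s : L) * (s' : L)) : ℝ) = Q.ord (s : L) + Q.ord (s' : L) := by
    intro s s' hs hs'
    rw [Q.ord_mul (by rwa [Ne, ZeroMemClass.coe_eq_zero]) (by rwa [Ne, ZeroMemClass.coe_eq_zero])]
    push_cast
    rfl
  have hne0 : ∀ {s : E} {s' : F}, s ≠ 0 → s' ≠ 0 → (s : L) * (s' : L) ≠ 0 := by
    intro s s' hs hs'
    exact mul_ne_zero (by rwa [Ne, ZeroMemClass.coe_eq_zero]) (by
      rwa [Ne, ZeroMemClass.coe_eq_zero])
  obtain ⟨s, hs, hs0, s', hs', hs0', hcase⟩ :=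
    prod_tw hE hF hL hα.1 hβ.1 (w := fun P => 2 * (m : ℤ) * pol Y P) hSE hSF hα.2 hδF1
      (fun P hP G hG => by
        rcases hβ.2 P hP G hG with h | ⟨s, hs, hs0, h⟩
        · exact Or.inl h
        · refine Or.inr ⟨s, hs, hs0, ?_⟩
          rwa [Nat.cast_one, one_mul] at h) hx ht hEx hEt hQ hG hne
  refine ⟨(s : L) * (s' : L), mem_SS E F hs hs', hne0 hs0 hs0', fun j => ?_⟩
  obtain ⟨g, hg0, hgY, hgf⟩ := hf j
  have e1 : algebraMap (IntermediateField.adjoin K (E : Set L)) L (f j) = (g : L) := hgf.symm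
  beta_reduce
  rw [e1, hss hs0 hs0']
  rcases hcase with ⟨P', e', hP', hPd', h1⟩ | ⟨hE0, h1⟩
  · obtain ⟨π, hπ0, hπ⟩ := P'.surj
    have h2 : Q.ord (π : L) = e' * P'.ord π := hP'.2 π
    rw [hπ, mul_one] at h2
    have h3 := hc ⟨(π : L), IntermediateField.subset_adjoin K _ π.2⟩
    have h3' : (c : ℤ) ∣ Q.ord (π : L) := h3
    rw [h2] at h3'
    have h4 : c ≤ e' := Nat.le_of_dvd hP'.1 (by exact_mod_cast h3')
    have h4r : (c : ℝ) ≤ e' := by exact_mod_cast h4
    have h5 := mul_le_mul_of_nonneg_left (sub_le_sub_right h4r 1) hm0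
    have h7 : (Q.ord (g : L) : ℝ) = e' * P'.ord g := by
      have : Q.ord (g : L) = e' * P'.ord g := hP'.2 _
      exact_mod_cast this
    have h8 : -(pol Y P' : ℤ) ≤ P'.ord g := by
      rcases hgY with rfl | hgY
      · rw [P'.ord_one]
        have : (0 : ℤ) ≤ pol Y P' := Int.natCast_nonneg _
        omega
      · exact (Pool.Agent.U192.NM.pol_ge P' hgY).resolve_left hg0
    have h9 : -(pol Y P' : ℝ) ≤ P'.ord g := by exact_mod_cast h8
    have h10 := mul_le_mul_of_nonneg_left h9 (mul_nonneg hm0 (Nat.cast_nonneg (α := ℝ) e'))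
    rw [h7]
    push_cast at h1
    nlinarith
  · have hU0 := triv_up hEU hE hU hE0
    have h3 : c = 1 := c_one hEU hE hU hKU hE0 hc
    rw [h3, hE0 _ g.2]
    rcases h1 with ⟨-, h1⟩ | ⟨P', e', hP', hPd', h1⟩
    · push_cast
      linarith
    · have h2 := hbd P Q P' e e' hQP hP' hQ hU0
      have h3 := mul_le_mul_of_nonneg_left h2 hm0
      push_cast
      linarith

end

end Pool.Agent.U192.PX
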