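import Pool.Agent.U192.PX.Many

/-!
Correspondences whose fibres over `X` are isotrivial: the transfer of nonvanishing and abundance.
-/

set_option autoImplicit false
set_option linter.overlappingInstances false
set_option linter.unusedSectionVars false
set_option maxHeartbeats 4000000

open FF IntermediateField Pool.Agent.W619.PQ Pool.Agent.W603.LV Pool.Agent.Y172
open Pool.Agent.W602.GT (Divisorial DerReg IsPluri KodGe)
open Pool.Agent.W619.TW (HasIndep)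
open Pool.Agent.Y174 (PairSec PairKod PairNum IsPull IsPullFib LiesOn)
open Pool.Agent.U192.NM (dg pol)

namespace Pool.Agent.U192.PX

open Pool.Agent.U192.PE (RegS BdGe num_prod)
open Pool.Agent.U192.PN (IsProd DivBd PairNeg)
open Pool.Agent.U192.PT (kod_down sec_down kod_zero)

section

variable {K L : Type} [Field K] [Field L] [Algebra ℂ K] [Algebra ℂ L] [Algebra K L]
  [IsScalarTower ℂ K L] [FiniteDimensional K L] {E U F : IntermediateField ℂ L}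
  [Algebra.EssFiniteType ℂ E] [Algebra.EssFiniteType ℂ U] [Algebra.EssFiniteType ℂ F]

/-- **The lower bound for the sections of `K_W + Δ`.** -/
theorem sec_up {d r m0 a : ℕ} (hm0 : 1 ≤ m0) (hsup : U ⊔ F = ⊤) (hEU : E ≤ U)
    (hE : Algebra.trdeg ℂ E = d) (hU : Algebra.trdeg ℂ U = d)
    (hF : Algebra.trdeg ℂ F = r) (hL : Algebra.trdeg ℂ L = (d + r : ℕ))
    (hKU : IntermediateField.adjoin K (U : Set L) = ⊤) {Y : Finset E}
    (hY : ∀ z ∈ IntermediateField.adjoin K (E : Set L),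
      z ∈ Submodule.span K {z : L | ∃ t : E, (t = 1 ∨ t ∈ Y) ∧ (t : L) = z})
    {δ : Place ℂ K → ℝ} {δF : Place ℂ F → ℝ} (hδ0 : ∀ P, 0 ≤ δ P)
    (hδF1 : ∀ P, Divisorial r P → δF P ≤ 1) (hge : BdGe U F (d + r) δ δF)
    {α : Fin (a + 1) → (Fin d → Derivation ℂ E E) → E}
    (hα : ∀ j, SecT d m0 Y {1} (α j)) {G0 : Fin d → Derivation ℂ E E} (hG0 : α 0 G0 ≠ 0)
    (hind : AlgebraicIndependent ℂ fun j : Fin a => α j.succ G0 / α 0 G0) (SF : Finset F) :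
    ∃ Z : Finset K, ∀ m N : ℕ, HasIndep ℂ F r N (PairSec ℂ F r δF SF m 1) →
      HasIndep ℂ K (d + r) ((m / m0 / a + 1) ^ a * N)
        (PairSec ℂ K (d + r) δ Z (m * Module.finrank K L) 1) := by
  classical
  obtain ⟨SE, hSE0, hSE⟩ := many_sections hm0 hE Y hα hG0 hind
  obtain ⟨Z, -, hZ⟩ := norm_prod (K := K) hsup hEU hE hU hF hL hKU hY SE (insert 1 SF) hSE0
    ⟨1, Finset.mem_insert_self _ _, one_ne_zero⟩
  refine ⟨Z, fun m N hN => hZ δ δF hδ0 hδF1 hge m _ N (hSE m) ?_⟩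
  obtain ⟨ω, hωi, hω⟩ := hN
  refine ⟨ω, hωi, fun l => ⟨(hω l).1, fun v hv G hG => ?_⟩⟩
  rcases (hω l).2 v hv G hG with h | ⟨s, hs, hs0, h⟩
  · exact Or.inl h
  · exact Or.inr ⟨s, Finset.mem_insert_of_mem hs, hs0, h⟩

/-- **Transfer of nonvanishing.** -/
theorem nonvan_transfer {d r m0 : ℕ} (hm0 : 1 ≤ m0) (hsup : U ⊔ F = ⊤) (hEU : E ≤ U)
    (hE : Algebra.trdeg ℂ E = d) (hU : Algebra.trdeg ℂ U = d)
    (hF : Algebra.trdeg ℂ F = (r + 1 : ℕ)) (hL : Algebra.trdeg ℂ L = (d + (r + 1) : ℕ))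
    (hKU : IntermediateField.adjoin K (U : Set L) = ⊤) {Y : Finset E}
    (hY : ∀ z ∈ IntermediateField.adjoin K (E : Set L),
      z ∈ Submodule.span K {z : L | ∃ t : E, (t = 1 ∨ t ∈ Y) ∧ (t : L) = z})
    {δ : Place ℂ K → ℝ} (hδ0 : ∀ P, 0 ≤ δ P)
    {δV : Place ℂ L → ℝ} (hδV : IsPull δ δV) {δF : Place ℂ F → ℝ} (hδF0 : ∀ P, 0 ≤ δF P)
    (hδF1 : ∀ P, Divisorial (r + 1) P → δF P ≤ 1) (hprod : IsProd U F (d + (r + 1)) δV δF)
    (hge : BdGe U F (d + (r + 1)) δ δF)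
    {α : (Fin d → Derivation ℂ E E) → E} (hα : SecT d m0 Y {1} α) (hα0 : α ≠ 0) :
    (PairNeg ℂ K (d + (r + 1)) δ ↔ PairNeg ℂ F (r + 1) δF) ∧
    (PairKod ℂ K (d + (r + 1)) δ 0 ↔ PairKod ℂ F (r + 1) δF 0) := by
  have hpos : 0 < Module.finrank K L := Module.finrank_pos
  obtain ⟨G0, hG0⟩ := Function.ne_iff.1 hα0
  have hind : AlgebraicIndependent ℂ fun j : Fin 0 =>
      (fun _ : Fin (0 + 1) => α) j.succ G0 / (fun _ : Fin (0 + 1) => α) 0 G0 :=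
    (algebraicIndependent_empty_type_iff).2 (algebraMap ℂ E).injective
  constructor
  · constructor
    · intro hK ST
      obtain ⟨Z, hZ⟩ := sec_up (K := K) hm0 hsup hEU hE hU hF hL hKU hY hδ0 hδF1 hge
        (α := fun _ : Fin (0 + 1) => α) (fun _ => hα) (G0 := G0) hG0 hind ST
      obtain ⟨M, hM⟩ := hK Z
      refine ⟨M, fun m hm hi => ?_⟩
      have h1 := hZ m 1 hi
      rw [pow_zero, one_mul] at h1
      exact hM _ (hm.trans (Nat.le_mul_of_pos_right _ hpos)) h1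
    · intro hYn S
      obtain ⟨ST, -, hST⟩ := sec_down (K := K) hsup hU hF hL hδV hδF0 hprod S
      obtain ⟨M, hM⟩ := hYn ST
      exact ⟨M, fun m hm hi => hM m hm (hST m hi)⟩
  · constructor
    · intro hK
      obtain ⟨m, hm, hi⟩ := kod_zero.1 hK
      obtain ⟨ST, h1, hST⟩ := sec_down (K := K) hsup hU hF hL hδV hδF0 hprod {1}
      rw [h1 rfl] at hST
      exact kod_zero.2 ⟨m, hm, hST m hi⟩
    · intro hYk
      have h1 := kod_prod (K := K) hsup hEU hE hU hF hL hKU hY hδ0 hδF1 hge hm0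
        (α := fun _ : Fin (0 + 1) => α) (fun _ => hα) (G0 := G0) hG0 hind hYk
      exact h1

/-- **Transfer of abundance.** -/
theorem abu_transfer {d r m0 : ℕ} (hm0 : 1 ≤ m0) (hsup : U ⊔ F = ⊤) (hEU : E ≤ U)
    (hE : Algebra.trdeg ℂ E = d) (hU : Algebra.trdeg ℂ U = d)
    (hF : Algebra.trdeg ℂ F = (r + 1 : ℕ)) (hL : Algebra.trdeg ℂ L = (d + (r + 1) : ℕ))
    (hKU : IntermediateField.adjoin K (U : Set L) = ⊤) {Y : Finset E}
    (hY : ∀ z ∈ IntermediateField.adjoin K (E : Set L),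
      z ∈ Submodule.span K {z : L | ∃ t : E, (t = 1 ∨ t ∈ Y) ∧ (t : L) = z})
    {δ : Place ℂ K → ℝ} (hδ0 : ∀ P, 0 ≤ δ P) (hbd : DivBd (d + (r + 1)) δ)
    {δV : Place ℂ L → ℝ} (hδV : IsPull δ δV) {δF : Place ℂ F → ℝ} (hδF0 : ∀ P, 0 ≤ δF P)
    (hδF1 : ∀ P, Divisorial (r + 1) P → δF P ≤ 1) (hprod : IsProd U F (d + (r + 1)) δV δF)
    (hge : BdGe U F (d + (r + 1)) δ δF)
    {α : Fin (d + 1) → (Fin d → Derivation ℂ E E) → E}
    (hα : ∀ j, SecT d m0 Y {1} (α j)) {G0 : Fin d → Derivation ℂ E E} (hG0 : α 0 G0 ≠ 0)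
    (hind : AlgebraicIndependent ℂ fun j : Fin d => α j.succ G0 / α 0 G0) (b : ℕ) :
    (PairKod ℂ K (d + (r + 1)) δ (d + b) ↔ PairKod ℂ F (r + 1) δF b) ∧
    (PairNum ℂ K (d + (r + 1)) δ (d + b) ↔ PairNum ℂ F (r + 1) δF b) := by
  refine ⟨⟨kod_down hsup hU hF hL hδV hδF0 hprod, fun hYk => kod_prod (K := K) hsup hEU hE hU hF
    hL hKU hY hδ0 hδF1 hge hm0 hα hG0 hind hYk⟩, ⟨fun hK ST => ?_, fun hYn =>
    num_prod (K := K) U F hsup hU hF hL hbd hδV hδF0 hprod hYn⟩⟩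
  obtain ⟨Z, hZ⟩ := sec_up (K := K) hm0 hsup hEU hE hU hF hL hKU hY hδ0 hδF1 hge hα hG0 hind ST
  obtain ⟨C, hC⟩ := hK Z
  have hpos : 0 < Module.finrank K L := Module.finrank_pos
  refine ⟨C * Module.finrank K L ^ (d + b) * (m0 * d) ^ d, fun m N hm hN => ?_⟩
  have h1 := hC _ _ (Nat.mul_pos hm hpos) (hZ m N hN)
  have h2 : m ^ d ≤ (m0 * d) ^ d * (m / m0 / d + 1) ^ d := by
    rcases Nat.eq_zero_or_pos d with hd | hd
    · rw [hd]
      simp
    rw [← mul_pow]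
    refine Nat.pow_le_pow_left ?_ d
    rw [Nat.div_div_eq_div_mul]
    exact (Nat.lt_mul_div_succ m (Nat.mul_pos hm0 hd)).le
  have hmd : 0 < m ^ d := Nat.pow_pos hm
  refine le_of_mul_le_mul_left (a := m ^ d) ?_ hmd
  calc m ^ d * N ≤ (m0 * d) ^ d * (m / m0 / d + 1) ^ d * N := Nat.mul_le_mul_right _ h2
    _ = (m0 * d) ^ d * ((m / m0 / d + 1) ^ d * N) := by ring
    _ ≤ (m0 * d) ^ d * (C * (m * Module.finrank K L) ^ (d + b)) := Nat.mul_le_mul_left _ h1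
    _ = m ^ d * (C * Module.finrank K L ^ (d + b) * (m0 * d) ^ d * m ^ b) := by
      rw [mul_pow m, pow_add m]
      ring

end

end Pool.Agent.U192.PX
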